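import Pool.Agent.Q29.TD.Main

/-!
# Embeddings of the integer Heisenberg groups into `UT_n(ℤ)` are distorted

The definitions (word length, `τ`-groups, the groups `UT n`, undistorted subgroups, the integer
Heisenberg group `Heis k` of dimension `2k+1`) are in `Pool.Agent.Q29.TD.Defs`.
-/

namespace Pool.Agent.Results.MP_34ced1_al.HeisenbergDistorted

open Q29.TD

/-- For every `k ≥ 2` the integer Heisenberg group of dimension `2k+1` is a `τ`-group, and for
every `n` and every injective homomorphism `φ` to `UT_n(ℤ)` the image of `φ` is distorted. -/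
theorem result (k : ℕ) (hk : 2 ≤ k) :
    IsTauGroup (Heis k) ∧
      ∀ (n : ℕ) (φ : Heis k →* UT n), Function.Injective φ → ¬ IsUndistorted φ.range :=
  ⟨Heis.isTau k, fun n φ hφ => not_undistorted hk n φ hφ⟩

end Pool.Agent.Results.MP_34ced1_al.HeisenbergDistorted
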